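import Pool.Agent.Results.MP_3c540c_co.OddMultiples

set_option autoImplicit false

/-!
A universal multiplier for faithful circuit covers has to be even: for every odd `k` the Petersen
graph has an admissible eulerian weight with values in `{k, 2k}` and no faithful circuit cover.
-/

namespace Pool.Agent.Results.MP_48d738_co.MultiplierEven

open Finset
open Pool.Agent.H126R2.CDC (MGraph)
open Pool.Agent.Results.MP_3c540c_co.OddMultiples

/-- no edge cut consists of exactly one edge -/
def Bridgeless {V E : Type} [Fintype V] [DecidableEq V] [Fintype E] [DecidableEq E]
    (G : MGraph V E) : Prop :=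
  ∀ X : Finset V, (cut G X).card ≠ 1

/-- `k` is a universal multiplier: for every bridgeless graph every admissible eulerian weight whose
values are multiples of `k` has a faithful circuit cover. -/
def UniversalMultiplier (k : ℕ) : Prop :=
  ∀ (V E : Type) [Fintype V] [DecidableEq V] [Fintype E] [DecidableEq E] (G : MGraph V E),
    Bridgeless G → PropertyP k G

/-- The Petersen graph, with vertex set `Fin 5 × Bool` and edge set `Fin 5 × Fin 3`: the edge
`(i, 0)` joins the outer vertices `i`, `i + 1`, the edge `(i, 1)` joins the outer and the inner vertex
`i`, and the edge `(i, 2)` joins the inner vertices `i`, `i + 2`. -/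
def petersen : MGraph PV PE := ⟨fun j => s(src j, tgt j)⟩

/-- the Petersen graph as a subdivision of itself -/
def self : PetersenSubdivision petersen where
  branch := id
  len := fun _ => 1
  vtx := fun j i => if i = 0 then src j else tgt j
  edg := fun j _ => j
  branch_inj := Function.injective_id
  len_pos := fun _ => Nat.one_pos
  start := fun _ => by simp
  finish := fun _ => by simp
  ends_edg := fun j i hi => by
    have : i = 0 := by omega
    subst this
    simp [petersen]
  inner_inj := fun j i j' i' h1 h2 => by omega
  inner_branch := fun j i b h1 h2 => by omega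

theorem covered : ∀ j : PE, ∃ i : Fin 5, inC i j = 1 := by decide

theorem petersen_bridgeless : Bridgeless petersen := by
  intro X h
  obtain ⟨e, he⟩ := Finset.card_eq_one.1 h
  obtain ⟨i, hi⟩ := covered e
  have h1 := self.even_cut (inC i) (inC_even i) X
  rw [he, Finset.sum_singleton] at h1
  have h2 : self.wt (inC i) e = 1 := by
    have h3 := self.wt_edg (inC i) (j := e) (i := 0) (self.len_pos e)
    rw [hi] at h3
    exact h3
  rw [h2] at h1
  exact absurd h1 (by decide)

/-- For every odd `k` the Petersen graph is bridgeless and has an admissible eulerian weight with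
values in `{k, 2k}` that has no faithful circuit cover. Consequently every universal multiplier is
even. -/
theorem result :
    (∀ k : ℕ, Odd k → ∃ w : PE → ℕ, (∀ e, w e = k ∨ w e = 2 * k) ∧ Admissible petersen w ∧
      Eulerian petersen w ∧ ¬ HasCover petersen w) ∧
    Bridgeless petersen ∧ ∀ k : ℕ, UniversalMultiplier k → Even k := by
  refine ⟨?_, petersen_bridgeless, ?_⟩
  · intro k hk
    refine ⟨fun e => k * self.wt cw e, ?_, self.admissible_wt k, self.eulerian_wt k,
      no_cover petersen self k hk⟩
    intro e
    have h3 : self.wt cw e = cw e := self.wt_edg cw (j := e) (i := 0) (self.len_pos e)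
    have h4 : cw e = 1 ∨ cw e = 2 := by revert e; decide
    show k * self.wt cw e = k ∨ k * self.wt cw e = 2 * k
    rw [h3]
    rcases h4 with h4 | h4 <;> rw [h4]
    · left; ring
    · right; ring
  · intro k h
    by_contra hk
    rw [Nat.not_even_iff_odd] at hk
    exact (Pool.Agent.Results.MP_3c540c_co.OddMultiples.result petersen self k hk).2
      (h PV PE petersen petersen_bridgeless)

end Pool.Agent.Results.MP_48d738_co.MultiplierEven
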